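import Pool.Agent.TH90.Cub.Util

set_option autoImplicit false

open CategoryTheory CategoryTheory.Limits CategoryTheory.Pretriangulated AlgebraicGeometry
  Pool.Agent.TH90.Cub

namespace Pool.Agent.Results.MP_fc2ced_ag.CubicHypersurfaces

universe v u

/-- The formalism used of the motives `M X` and the motives with compact support `Mc X`, in a
triangulated category `D`, of separated schemes `X` of finite type over a field `k`: `Mc X` only
depends on `X` up to isomorphism, is zero for the empty scheme, there are distinguished triangles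
`Mc Z → Mc X → Mc (X \ Z) → Mc Z [1]` for closed `Z ⊆ X`, and `Mc (A[T]) ≅ (Mc A)(1)[2]` for the
affine line over `Spec A`, where `E ↦ E(1)[2]` is an autoequivalence of `D`. -/
structure Motives (D : Type u) [Category.{v} D] [HasZeroObject D] [HasShift D ℤ] [Preadditive D]
    [∀ n : ℤ, (shiftFunctor D n).Additive] [Pretriangulated D] (k : Type) [Field k] where
  /-- the motive -/
  M : ∀ X : Scheme.{0}, (X ⟶ Spec (CommRingCat.of k)) → D
  /-- the motive with compact support -/
  Mc : ∀ X : Scheme.{0}, (X ⟶ Spec (CommRingCat.of k)) → D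
  iso : ∀ {X Y : Scheme.{0}} (e : X ≅ Y) (g : Y ⟶ Spec (CommRingCat.of k)), FT True k g →
    Nonempty (Mc X (e.hom ≫ g) ≅ Mc Y g)
  empty : ∀ {X : Scheme.{0}} (f : X ⟶ Spec (CommRingCat.of k)), IsEmpty X → IsZero (Mc X f)
  localization : ∀ {Z X U : Scheme.{0}} (f : X ⟶ Spec (CommRingCat.of k)) (i : Z ⟶ X)
    (j : U ⟶ X), FT True k f → IsClosedImmersion i → IsOpenImmersion j →
    Set.range i = (Set.range j)ᶜ →
    ∃ (a : Mc Z (i ≫ f) ⟶ Mc X f) (b : Mc X f ⟶ Mc U (j ≫ f))
      (c : Mc U (j ≫ f) ⟶ (shiftFunctor D (1 : ℤ)).obj (Mc Z (i ≫ f))),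
      Triangle.mk a b c ∈ distTriang D
  /-- `E ↦ E(1)[2]` -/
  twist : D ≌ D
  line : ∀ (A : Type) [CommRing A] [Algebra k A], Algebra.FiniteType k A →
    Nonempty (Mc (Spec (CommRingCat.of (Polynomial A))) (str k (Polynomial A)) ≅
      twist.functor.obj (Mc (Spec (CommRingCat.of A)) (str k A)))

variable {D : Type u} [Category.{v} D] [HasZeroObject D] [HasShift D ℤ] [Preadditive D]
  [∀ n : ℤ, (shiftFunctor D n).Additive] [Pretriangulated D] {k : Type} [Field k]

/-- A class `S` of objects of `D` which contains the zero object and is closed under isomorphisms,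
shifts and extensions (so it has the two out of three property), and under `E ↦ E(1)[2]` and its
inverse, and which contains the motive of a smooth scheme `X` if and only if it contains its motive
with compact support (for example because it is closed under duals; Poincare duality). The
Schur-finite objects form such a class (Guletskii, Mazza). -/
structure Admissible (T : Motives D k) (S : ObjectProperty D) : Prop where
  tri : S.IsTriangulated
  isoc : S.IsClosedUnderIsomorphisms
  twist : ∀ E : D, S E ↔ S (T.twist.functor.obj E)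
  duality : ∀ (X : Scheme.{0}) (f : X ⟶ Spec (CommRingCat.of k)), FT True k f → Smooth f →
    (S (T.M X f) ↔ S (T.Mc X f))

/-- The ring `k[x_1, …, x_n][t_0, …, t_r] / (g_0 t_0 + ⋯ + g_r t_r - 1)`. -/
abbrev Cubic {n r : ℕ} (g : Fin (r + 1) → MvPolynomial (Fin n) k) : Type :=
  Hyp (MvPolynomial (Fin n) k) g

/-- Let `K ⊆ k` generate `k` as a ring, `1 ∈ K`. The motives of all smooth separated schemes of
finite type over `k` belong to `S` if and only if the motives with compact support of all separated
schemes of finite type over `k` do, and if and only if the motives of the smooth hypersurfaces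
`g_0 t_0 + ⋯ + g_r t_r = 1` of degree at most three in affine spaces do, where each `g_i` is of the
form `x_a x_b - x_c`, `x_a + x_b - x_c` or `x_a - c`, `c ∈ K`. -/
theorem result (T : Motives D k) (S : ObjectProperty D) (hS : Admissible T S) (K : Set k)
    (hK : Subring.closure K = ⊤) (h1 : (1 : k) ∈ K) :
    ((∀ (X : Scheme.{0}) (f : X ⟶ Spec (CommRingCat.of k)), FT True k f → Smooth f →
        S (T.M X f)) ↔
      (∀ (n r : ℕ) (g : Fin (r + 1) → MvPolynomial (Fin n) k), (∀ i, IsGate K (g i)) →
        S (T.M (Spec (CommRingCat.of (Cubic g))) (str k (Cubic g))))) ∧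
    ((∀ (X : Scheme.{0}) (f : X ⟶ Spec (CommRingCat.of k)), FT True k f → S (T.Mc X f)) ↔
      (∀ (n r : ℕ) (g : Fin (r + 1) → MvPolynomial (Fin n) k), (∀ i, IsGate K (g i)) →
        S (T.M (Spec (CommRingCat.of (Cubic g))) (str k (Cubic g))))) ∧
    (∀ (n r : ℕ) (g : Fin (r + 1) → MvPolynomial (Fin n) k), Smooth (str k (Cubic g))) := by
  have hsm : ∀ (n r : ℕ) (g : Fin (r + 1) → MvPolynomial (Fin n) k), Smooth (str k (Cubic g)) := by
    intro n r g
    have := smooth_mv k n
    exact hyp_smooth_scheme k _ g
  have hfin : ∀ (n r : ℕ) (g : Fin (r + 1) → MvPolynomial (Fin n) k),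
      FT True k (str k (Cubic g)) := fun n r g => ft_hyp g
  have hall : (∀ (n r : ℕ) (g : Fin (r + 1) → MvPolynomial (Fin n) k), (∀ i, IsGate K (g i)) →
        S (T.M (Spec (CommRingCat.of (Cubic g))) (str k (Cubic g)))) →
      (∀ (X : Scheme.{0}) (f : X ⟶ Spec (CommRingCat.of k)), FT True k f → S (T.Mc X f)) := by
    intro h X f hf
    have htri := hS.tri
    have hiso := hS.isoc
    let P : ∀ X : Scheme.{0}, (X ⟶ Spec (CommRingCat.of k)) → Prop := fun X f => S (T.Mc X f)
    have hP : IsDevissage True k P :=
      { iso := by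
          intro X Y e g hg hX
          obtain ⟨E⟩ := T.iso e g hg
          exact S.prop_of_iso E hX
        empty := by
          intro X f hX
          exact S.prop_of_isZero (T.empty f hX)
        closed := by
          intro Z X U f i j hf hi hj hr hX hU
          obtain ⟨a, b, c, ht⟩ := T.localization f i j hf hi hj hr
          exact S.ext_of_isTriangulatedClosed₁ _ ht hX hU
        total := by
          intro Z X U f i j hf hi hj hr hZ hU
          obtain ⟨a, b, c, ht⟩ := T.localization f i j hf hi hj hr
          exact S.ext_of_isTriangulatedClosed₂ _ ht hZ hU }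
    have hA1 : A1 P := by
      intro A _ _ hA
      obtain ⟨E⟩ := T.line A hA
      constructor
      · intro h
        exact S.prop_of_iso E.symm ((hS.twist _).mp h)
      · intro h
        exact (hS.twist _).mpr (S.prop_of_iso E h)
    exact all_of_cubics hK h1 hP hA1
      (fun n r g hg => (hS.duality _ _ (hfin n r g) (hsm n r g)).mp (h n r g hg)) f hf
  refine ⟨⟨fun h n r g _ => h _ _ (hfin n r g) (hsm n r g), fun h X f hf hs =>
    (hS.duality X f hf hs).mpr (hall h X f hf)⟩, ⟨fun h n r g _ =>
    (hS.duality _ _ (hfin n r g) (hsm n r g)).mpr (h _ _ (hfin n r g)), hall⟩, hsm⟩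

end Pool.Agent.Results.MP_fc2ced_ag.CubicHypersurfaces
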