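import Pool.Agent.TH829.Ten.Main

/-!
# Schur-finiteness can be checked modulo all prime tensor ideals

Let `C` be a `ℚ`-linear symmetric monoidal category, for example the category `DM_gm(k)_ℚ`, and `a`
an object of `C`.

(1) `a` is Schur-finite if and only if it is Schur-finite in `C/P` for each prime tensor ideal `P`,
that is, for each tensor ideal `P` such that `C/P` is not zero and has no zero divisors for the tensor
product of morphisms.

(2) More precisely, if the Schur functor of `Λ P` kills `a` modulo `P`, for each prime tensor ideal
`P` containing a tensor ideal `I`, then there are finitely many of these prime ideals `P` such that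
the Schur functor of the sum of the diagrams `Λ P` (the lengths of the rows are added) kills `a`
modulo `I`.

Proof. The Young symmetrizer of `μ + ν` is, up to a non-zero factor, a left multiple of the product
of the Young symmetrizers of `μ` and `ν` (the columns of `μ + ν` are the columns of `μ` and of `ν`).
So a tensor ideal which contains the tensor product of the endomorphisms defined by the Young
symmetrizers of `μ` and `ν` contains the endomorphism of `μ + ν`. It follows that a tensor ideal
which is maximal among those that do not contain any of the endomorphisms defined by the sums of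
diagrams `Λ P` is prime: if `f ⊗ g` belongs to it but `f` and `g` do not, consider the ideals
`(P : f)`. The action of the symmetric groups on the tensor powers is the one constructed in
`NotSchurFinite` under `MP_b5fdc6_ag`; that it is an action, and compatible with tensor products, is
proved here.
-/

set_option autoImplicit false

open CategoryTheory MonoidalCategory

universe v u

namespace Pool.Agent.Results.MP_fc2ced_ag.LocalOnPrimes

open Pool.Agent.TH829.Ten
open Pool.Agent.TH137.DG (IsSchurFinite)

/-- (1) The object `a` is Schur-finite if and only if, for each prime tensor ideal `P`, some Schur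
functor kills `a` modulo `P`. (2) Let `I` be a tensor ideal and, for each prime tensor ideal `P`
containing `I`, let the Schur functor of the diagram `Λ P` kill `a` modulo `P`. Then there are
finitely many of these prime ideals such that the Schur functor of the sum of the diagrams `Λ P`
kills `a` modulo `I`. -/
theorem result {C : Type u} [Category.{v} C] [MonoidalCategory C] [SymmetricCategory C]
    [Preadditive C] [Linear ℚ C] [MonoidalPreadditive C] (a : C) :
    (IsSchurFinite a ↔ ∀ P : Family C, IsPrimeIdeal P → ∃ μ : YoungDiagram, Kills P μ a) ∧
    ∀ (I : Family C), IsTensorIdeal I → ∀ Λ : Family C → YoungDiagram,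
      (∀ P : Family C, IsPrimeIdeal P → I ≤ P → Kills P (Λ P) a) →
      ∃ l : List (Family C), (∀ P ∈ l, IsPrimeIdeal P ∧ I ≤ P) ∧
        Kills I ((l.map Λ).foldr addD ⊥) a := by
  refine ⟨⟨?_, ?_⟩, fun I hI Λ h => kills_sum hI a Λ h⟩
  · rintro ⟨n, μ, T, -, h⟩ P hP
    refine ⟨μ, n, T, ?_⟩
    rw [h]
    exact Submodule.zero_mem _
  · intro h
    classical
    choose! Λ hΛ using h
    obtain ⟨l, -, n, T, h1⟩ := kills_sum (C := C) isTensorIdeal_bot a Λ (fun P hP _ => hΛ P hP)
    rcases Nat.eq_zero_or_pos n with rfl | hn
    · have h0 : Kills (fun _ _ => ⊥ : Family C) ⊥ a := by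
        have e : ((l.map Λ).foldr addD ⊥) = ⊥ := by
          have h2 := Fintype.card_congr T
          rw [Fintype.card_fin, Fintype.card_coe] at h2
          have h3 := Finset.card_eq_zero.1 h2.symm
          apply SetLike.ext
          intro c
          rw [← YoungDiagram.mem_cells, h3, ← YoungDiagram.mem_cells, YoungDiagram.cells_bot]
        rw [← e]
        exact ⟨0, T, h1⟩
      have h2 := unit_mem_of_kills_bot h0
      have h3 : ∀ {X Y : C} (f : X ⟶ Y), f = 0 := fun f =>
        (Submodule.mem_bot ℚ).1 (isTensorIdeal_bot.mem_of_unit h2 f)
      obtain ⟨T1⟩ : Nonempty (Fin 1 ≃ oneCell.cells) := by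
        refine ⟨Fintype.equivOfCardEq ?_⟩
        rw [Fintype.card_coe]
        rfl
      exact ⟨1, oneCell, T1, le_rfl, h3 _⟩
    · exact ⟨n, _, T, hn, (Submodule.mem_bot ℚ).1 h1⟩

end Pool.Agent.Results.MP_fc2ced_ag.LocalOnPrimes
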